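import Pool.Agent.Lib.MP_6d8312_an.Mg.G007
import Pool.Agent.Lib.MP_6d8312_an.Mg.G010
import Pool.Agent.Lib.MP_6d8312_an.Mg.G012
import Pool.Agent.Lib.MP_6d8312_an.Mg.G009

/-!
# The dichotomy: every set of integers is a Sidon set or a set of analyticity
-/

set_option autoImplicit false

noncomputable section

namespace Pool.Agent.Lib.MP_6d8312_an.KD

theorem dichotomy (Λ : Set ℤ) : Q.SidonSet Λ ∨ AnalyticitySet Λ := by
  by_cases h : ∃ D : ℕ, ∀ A : Finset ℤ, (∀ n ∈ A, n ∈ Λ ∧ n ≠ 0) → A.card ≤ D * qd A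
  · left
    obtain ⟨D, hD⟩ := h
    obtain ⟨C', hC'⟩ := interp_of_qd Λ D hD
    exact Q.sidon_of_interp Λ C' hC'
  · right
    push Not at h
    exact Q.analyticitySet_of_growth (growth_of_dense Λ h)

end Pool.Agent.Lib.MP_6d8312_an.KD
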