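import Pool.Agent.Lib.MP_6d8312_an.Mg.G001

/-!
# The Riemann-Lebesgue lemma on the circle
-/

set_option autoImplicit false

noncomputable section

namespace Pool.Agent.Lib.MP_6d8312_an.KD

open MeasureTheory

private lemma RL_norm_fc (f : UnitAddCircle → ℂ) (n : ℤ) :
    ‖fourierCoeff f n‖ ≤ ∫ t, ‖f t‖ ∂AddCircle.haarAddCircle := by
  unfold fourierCoeff
  refine (norm_integral_le_integral_norm _).trans_eq ?_
  apply integral_congr_ae
  filter_upwards with t
  rw [norm_smul]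
  have : ‖(fourier (-n) : C(UnitAddCircle, ℂ)) t‖ = 1 := by
    rw [fourier_apply]
    exact Circle.norm_coe _
  rw [this, one_mul]

/-- the `n`-th Fourier coefficient as a continuous linear map on `L¹` -/
private def RL_FC (n : ℤ) :
    (Lp ℂ 1 (AddCircle.haarAddCircle (T := 1))) →L[ℂ] ℂ :=
  LinearMap.mkContinuous
    { toFun := fun f => fourierCoeff (f : UnitAddCircle → ℂ) n
      map_add' := by
        intro f g
        have h1 := congrFun (fourierCoeff.add (L1.integrable_coeFn f) (L1.integrable_coeFn g)) n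
        have h2 := congrFun (fourierCoeff_congr_ae (Lp.coeFn_add f g)) n
        exact h2.trans h1
      map_smul' := by
        intro c f
        rw [RingHom.id_apply, ← fourierCoeff.const_smul]
        exact congrFun (fourierCoeff_congr_ae (Lp.coeFn_smul c f)) n }
    1 (by
      intro f
      rw [one_mul, L1.norm_eq_integral_norm]
      exact RL_norm_fc _ n)

private lemma RL_FC_apply (n : ℤ) (f : Lp ℂ 1 (AddCircle.haarAddCircle (T := 1))) :
    RL_FC n f = fourierCoeff (f : UnitAddCircle → ℂ) n := rfl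

private lemma RL_FC_norm (n : ℤ) (f : Lp ℂ 1 (AddCircle.haarAddCircle (T := 1))) :
    ‖RL_FC n f‖ ≤ ‖f‖ := by
  rw [RL_FC_apply, L1.norm_eq_integral_norm]
  exact RL_norm_fc _ n

private lemma RL_span (g : Lp ℂ 1 (AddCircle.haarAddCircle (T := 1)))
    (hg : g ∈ Submodule.span ℂ (Set.range (@fourierLp 1 _ 1 _))) :
    ∃ s : Finset ℤ, ∀ n, n ∉ s → RL_FC n g = 0 := by
  classical
  refine Submodule.span_induction (p := fun g _ => ∃ s : Finset ℤ, ∀ n, n ∉ s → RL_FC n g = 0)
    ?_ ?_ ?_ ?_ hg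
  · rintro _ ⟨k, rfl⟩
    refine ⟨{k}, fun n hn => ?_⟩
    rw [Finset.mem_singleton] at hn
    rw [RL_FC_apply, congrFun (fourierCoeff_congr_ae (coeFn_fourierLp 1 k)) n,
      congrFun (fourierCoeff_fourier (T := 1) k) n, Pi.single_eq_of_ne hn]
  · exact ⟨∅, fun n _ => map_zero _⟩
  · rintro x y _ _ ⟨s, hs⟩ ⟨t, ht⟩
    refine ⟨s ∪ t, fun n hn => ?_⟩
    rw [Finset.mem_union, not_or] at hn
    rw [map_add, hs n hn.1, ht n hn.2, add_zero]
  · rintro c x _ ⟨s, hs⟩
    refine ⟨s, fun n hn => ?_⟩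
    rw [map_smul, hs n hn, smul_zero]

/-- Elements of `A(Λ)` tend to zero along `Λ`. -/
theorem inA_null {Λ : Set ℤ} {a : ℤ → ℂ} (h : InA Λ a) {ε : ℝ} (hε : 0 < ε) :
    {n : ℤ | n ∈ Λ ∧ ε ≤ ‖a n‖}.Finite := by
  obtain ⟨f, hf, hfa⟩ := h
  have htop := span_fourierLp_closure_eq_top (T := 1) (p := 1) (by norm_num)
  have hmem : hf.toL1 f ∈ (Submodule.span ℂ (Set.range (@fourierLp 1 _ 1 _))).topologicalClosure :=
    by rw [htop]; trivial
  rw [← SetLike.mem_coe, Submodule.topologicalClosure_coe, Metric.mem_closure_iff] at hmem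
  obtain ⟨g, hg, hd⟩ := hmem ε hε
  obtain ⟨s, hs⟩ := RL_span g hg
  refine s.finite_toSet.subset ?_
  rintro n ⟨hn, hna⟩
  by_contra hns
  have h1 : RL_FC n (hf.toL1 f) = a n := by
    rw [RL_FC_apply, congrFun (fourierCoeff_congr_ae hf.coeFn_toL1) n]
    exact hfa n hn
  have h2 : ‖a n‖ ≤ ‖hf.toL1 f - g‖ := by
    have h3 : a n = RL_FC n (hf.toL1 f - g) := by
      rw [map_sub, h1, hs n hns, sub_zero]
    rw [h3]
    exact RL_FC_norm n _
  rw [dist_eq_norm] at hd
  linarith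

end Pool.Agent.Lib.MP_6d8312_an.KD
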