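import Pool.Agent.Lib.MP_6d8312_an.KD.Dichotomy
import Pool.Agent.Lib.MP_6d8312_an.KD.RLemma

/-!
# Sidon sets in the form `A(Λ) = c₀(Λ)`, and the dichotomy
-/

set_option autoImplicit false

noncomputable section

namespace Pool.Agent.Lib.MP_6d8312_an.KD

/-- `Λ` is a Sidon set: `A(Λ) = c₀(Λ)`, that is, a sequence belongs to `A(Λ)` if and only if it tends
to zero along `Λ`. -/
def Sidon (Λ : Set ℤ) : Prop :=
  ∀ a : ℤ → ℂ, InA Λ a ↔ ∀ ε : ℝ, 0 < ε → {n : ℤ | n ∈ Λ ∧ ε ≤ ‖a n‖}.Finite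

theorem sidon_of_sidonSet {Λ : Set ℤ} (h : Q.SidonSet Λ) : Sidon Λ :=
  fun a => ⟨fun ha _ hε => inA_null ha hε, fun ha => h a ha⟩

theorem sidon_or_analyticitySet (Λ : Set ℤ) : Sidon Λ ∨ AnalyticitySet Λ :=
  (dichotomy Λ).imp_left sidon_of_sidonSet

end Pool.Agent.Lib.MP_6d8312_an.KD
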