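import Pool.Agent.Lib.MP_6d8312_an.Mg.G003
import Pool.Agent.Lib.MP_6d8312_an.Mg.G004
import Pool.Agent.Lib.MP_6d8312_an.Mg.G002
import Pool.Agent.Lib.MP_6d8312_an.Mg.G001

/-!
# Extraction of hubs

`n = |A|`, `d = qd A ≥ 1`, `D = dens A = n/d`, `β = 2^k`, `μ = |At|/n`, `k' = nu(U∪R)-nu U-nu R` (`k' ≥ 0`:
`exp k' = ∑ Q ≥ Q 0 = 1`).  From `hbig` (all three terms on the left are `≥ 0`): `μ ≥ om/4`,
`|U| ≤ (8x²/om) μ d`, `k' ≤ (8 P x³/om) μ d`.
Choose for `a ∈ At` a class `cl a = (s a, j a) ∈ U ×ˢ Icc (-m) m` with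
`Q(i a - j a s a) ≥ 3/4`; `|U ×ˢ Icc| = (2m+1)|U| ≤ (2m+1) 8 x² μ d/om`, and
`2 M (2m+1) 8 x² μ d/om ≤ μ D d = μ n = |At|` by `hD`: `rich` gives `Ar`, `|Ar| ≥ μ n/2`,
`qd Ar ≥ |Ar|/D ≥ μ d/2` (`Crit.card_le`).  `B₀ ⊆ Ar` QI with `|B₀| = qd Ar` (`exists_qi`).  `dim_T`:
`(2/5)(μ d/2) ≤ k' + |T| log (ph β)`, `T = B₀.image s`; `k' ≤ (8Px³/om) μ d ≤ μ d/10` (`hP80`),
`log (ph β) ≤ log (1+160 m²) ≤ 160 m²`; so `|T| ≥ μ d/(1600 m²)`.  For `t ∈ T` choose one `b ∈ B₀` with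
`s b = t`: `B` is the set of these (QI by `QI.mono`, `s` injective on `B`, `|B| = |T|`).
For `b ∈ B` let `C b` be a subset of `{a ∈ At | cl a = cl b}` of size `M`
(`Finset.exists_subset_card_eq`); disjoint for different `b` (different `s b`).
`V = {i (a - b)}`: for `a ∈ C b`: `Q(i a - j s), Q(i b - j s) ≥ 3/4`, so by `T2.sub_ge` for `Q`
(`(ia - js) - (ib - js) = i(a-b)`) `Q(i(a-b)) ≥ (9/16)² ≥ 1/4`; `F2Q` with `i = 1`, `c = 1/4`:
`qd V log (5/4) ≤ k'`, `log(5/4) ≥ 2/9`, so `qd V ≤ 4.5 k' ≤ 36 P x³ μ d/om ≤ 36 P x³ 1600 m² |B|/om`.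
And `om d/4 ≤ μ d ≤ 1600 m² |B|`.
-/

set_option autoImplicit false

noncomputable section

namespace Pool.Agent.Lib.MP_6d8312_an.KD

open Finset

variable {p : ℕ} [Fact p.Prime]

private theorem HubData_kp_nonneg (hp : p ≠ 2) {β : ℝ} (hβ : 0 < β) {U R : Finset (ZMod p)}
    (hUR : Disjoint U R) : 0 ≤ nu β (U ∪ R) - nu β U - nu β R := by
  have h := sum_fS_mul hp hβ hUR
  have hU := fS_t2 hp hβ U
  have hR := fS_t2 hp hβ R
  have h1 : fS β U 0 * fS β R 0 ≤ ∑ v, fS β U v * fS β R v :=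
    Finset.single_le_sum (f := fun v => fS β U v * fS β R v)
      (fun v _ => mul_nonneg (hU.nonneg v) (hR.nonneg v)) (Finset.mem_univ 0)
  rw [hU.zero, hR.zero, h] at h1
  have h2 := Real.log_le_log (by norm_num) h1
  rw [Real.log_exp] at h2
  simpa using h2

/-- A section of `s` on `B₀`. -/
private theorem HubData_section {α : Type*} [DecidableEq α] (B₀ : Finset α) (s : α → α) :
    ∃ B ⊆ B₀, B.card = (B₀.image s).card ∧ ∀ b ∈ B, ∀ b' ∈ B, b ≠ b' → s b ≠ s b' := by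
  classical
  have h : ∀ t ∈ B₀.image s, ∃ b ∈ B₀, s b = t := fun t ht => Finset.mem_image.1 ht
  choose! g hg hg' using h
  refine ⟨(B₀.image s).image g, ?_, ?_, ?_⟩
  · intro b hb
    obtain ⟨t, ht, rfl⟩ := Finset.mem_image.1 hb
    exact hg t ht
  · refine Finset.card_image_of_injOn ?_
    intro t ht t' ht' htt
    rw [← hg' t (by simpa using ht), ← hg' t' (by simpa using ht'), htt]
  · intro b hb b' hb' hne hs
    obtain ⟨t, ht, rfl⟩ := Finset.mem_image.1 hb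
    obtain ⟨t', ht', rfl⟩ := Finset.mem_image.1 hb'
    rw [hg' t ht, hg' t' ht'] at hs
    exact hne (by rw [hs])

private theorem HubData_log : (2 : ℝ) / 9 ≤ Real.log (1 + 1 / 4) := by
  rw [Real.le_log_iff_exp_le (by norm_num)]
  have h := Real.exp_bound' (x := 2 / 9) (by norm_num) (by norm_num) (n := 3) (by norm_num)
  refine h.trans ?_
  simp [Finset.sum_range_succ, Nat.factorial]
  norm_num

theorem hub_data (hp : p ≠ 2) {A : Finset (ZMod p)} (hA : Crit A) (m k M : ℕ) (hm : 1 ≤ m)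
    (hk : 20 * (m : ℝ) ^ 2 ≤ 2 ^ k) (hk' : (2 : ℝ) ^ k ≤ 40 * (m : ℝ) ^ 2) {x om P : ℝ}
    (hx0 : 0 < x) (hP0 : 0 < P) (hom0 : 0 < om) {i : ZMod p} (hi : i ≠ 0)
    {U R At : Finset (ZMod p)} (hUR : Disjoint U R) (hAt : At ⊆ A)
    (hatt : ∀ a ∈ At, Att (2 ^ k) m i U R a)
    (hbig : om / 4 * A.card + om / (8 * x ^ 2) * (U.card / qd A) * A.card +
        om / (8 * P * x ^ 3) * ((nu (2 ^ k) (U ∪ R) - nu (2 ^ k) U - nu (2 ^ k) R) / qd A) *
          A.card ≤ At.card)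
    (hD : 16 * M * (2 * m + 1) * x ^ 2 ≤ om * dens A) (hP80 : 80 * P * x ^ 3 ≤ om) :
    ∃ (B : Finset (ZMod p)) (C : ZMod p → Finset (ZMod p)) (V : Finset (ZMod p)),
      QI B ∧ (∀ b ∈ B, C b ⊆ A ∧ (C b).card = M) ∧
      (∀ b ∈ B, ∀ b' ∈ B, b ≠ b' → Disjoint (C b) (C b')) ∧
      (∀ b ∈ B, ∀ a ∈ C b, i * (a - b) ∈ V) ∧
      om * qd V ≤ 60000 * m ^ 2 * P * x ^ 3 * B.card ∧
      om * qd A ≤ 6400 * m ^ 2 * B.card := by
  classical
  have hβ : (0 : ℝ) < 2 ^ k := by positivity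
  set kp : ℝ := nu (2 ^ k) (U ∪ R) - nu (2 ^ k) U - nu (2 ^ k) R with hkp
  have hkp0 : 0 ≤ kp := HubData_kp_nonneg hp hβ hUR
  have hd1 : (1 : ℝ) ≤ qd A := by exact_mod_cast hA.qd_pos
  have hn0 : (0 : ℝ) < A.card := by exact_mod_cast hA.ne.card_pos
  have hm1 : (1 : ℝ) ≤ m := by exact_mod_cast hm
  obtain ⟨n, hn⟩ : ∃ n : ℝ, n = A.card := ⟨_, rfl⟩
  obtain ⟨d, hd⟩ : ∃ d : ℝ, d = qd A := ⟨_, rfl⟩
  obtain ⟨a, ha⟩ : ∃ a : ℝ, a = At.card := ⟨_, rfl⟩
  obtain ⟨u, hu⟩ : ∃ u : ℝ, u = U.card := ⟨_, rfl⟩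
  have hu0 : 0 ≤ u := by rw [hu]; positivity
  have ha0 : 0 ≤ a := by rw [ha]; positivity
  rw [← hn, ← hd, ← hu, ← ha] at hbig
  rw [← hn] at hn0
  rw [← hd] at hd1
  have hd0 : 0 < d := by linarith
  have t1 : 0 ≤ om / 4 * n := by positivity
  have t2 : 0 ≤ om / (8 * x ^ 2) * (u / d) * n := by positivity
  have t3 : 0 ≤ om / (8 * P * x ^ 3) * (kp / d) * n := by positivity
  have e1 : om / 4 * n ≤ a := by linarith
  have e2 : om * u * n ≤ 8 * x ^ 2 * d * a := by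
    have h : om / (8 * x ^ 2) * (u / d) * n ≤ a := by linarith
    have h' : om / (8 * x ^ 2) * (u / d) * n = om * u * n / (8 * x ^ 2 * d) := by
      field_simp
    rw [h', div_le_iff₀ (by positivity)] at h
    linarith
  have e3 : om * kp * n ≤ 8 * P * x ^ 3 * d * a := by
    have h : om / (8 * P * x ^ 3) * (kp / d) * n ≤ a := by linarith
    have h' : om / (8 * P * x ^ 3) * (kp / d) * n = om * kp * n / (8 * P * x ^ 3 * d) := by
      field_simp
    rw [h', div_le_iff₀ (by positivity)] at h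
    linarith
  -- the classes
  unfold Att at hatt
  choose! s hs j hj hatt using hatt
  set Q : ZMod p → ℝ := fun v => fS (2 ^ k) U v * fS (2 ^ k) R v with hQ
  have hQ2 : T2 Q := (fS_t2 hp hβ U).mul' (fS_t2 hp hβ R)
  set cl : ZMod p → ZMod p × ℤ := fun a => (s a, j a) with hcl
  set T : Finset (ZMod p × ℤ) := U ×ˢ Finset.Icc (-(m : ℤ)) m with hT
  have hclT : ∀ a ∈ At, cl a ∈ T := by
    intro a ha
    rw [hT, Finset.mem_product]
    exact ⟨hs a ha, Finset.mem_Icc.2 (abs_le.1 (hj a ha))⟩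
  have hTc : (T.card : ℝ) = u * (2 * m + 1) := by
    rw [hT, Finset.card_product, Int.card_Icc, hu]
    push_cast
    congr 1
    have : ((m : ℤ) + 1 - -(m : ℤ)).toNat = 2 * m + 1 := by omega
    rw [this]; push_cast; ring
  have hDn : 16 * M * (2 * m + 1) * x ^ 2 * d ≤ om * n := by
    have h : om * dens A = om * n / d := by
      rw [dens, ← hn, ← hd]; ring
    rw [h, le_div_iff₀ hd0] at hD
    exact hD
  have hrich : 2 * (M * T.card) ≤ At.card := by
    have h : 2 * (M * (T.card : ℝ)) ≤ a := by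
      rw [hTc]
      have h1 : (2 * (M * (u * (2 * m + 1)))) * (om * n) ≤ a * (om * n) := by
        calc (2 * ((M : ℝ) * (u * (2 * m + 1)))) * (om * n)
            = 2 * M * (2 * m + 1) * (om * u * n) := by ring
          _ ≤ 2 * M * (2 * m + 1) * (8 * x ^ 2 * d * a) :=
              mul_le_mul_of_nonneg_left e2 (by positivity)
          _ = (16 * M * (2 * m + 1) * x ^ 2 * d) * a := by ring
          _ ≤ (om * n) * a := mul_le_mul_of_nonneg_right hDn ha0
          _ = a * (om * n) := by ring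
      exact le_of_mul_le_mul_right h1 (by positivity)
    rw [ha] at h
    exact_mod_cast h
  obtain ⟨Ar, hArAt, hArc, hArM⟩ := rich At cl T hclT M hrich
  have hArA : Ar ⊆ A := hArAt.trans hAt
  have hqAr : a * d ≤ 2 * n * qd Ar := by
    have h := hA.card_le hArA
    rw [← hn, ← hd] at h
    have h2 : a ≤ 2 * (Ar.card : ℝ) := by rw [ha]; exact_mod_cast hArc
    have h3 : (Ar.card : ℝ) * d ≤ n * qd Ar := by
      have h4 : n / d * qd Ar = n * qd Ar / d := by ring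
      rw [h4, le_div_iff₀ hd0] at h
      exact h
    nlinarith
  obtain ⟨B₀, hB₀, hB₀q, hB₀c⟩ := exists_qi Ar
  have hB₀At : ∀ b ∈ B₀, b ∈ At := fun b hb => hArAt (hB₀ hb)
  have hdim := dim_T hp hβ hUR B₀ hB₀q hi s j m hk (fun b hb => hj b (hB₀At b hb))
    (fun b hb => hatt b (hB₀At b hb))
  rw [← hkp] at hdim
  obtain ⟨B, hBB, hBc, hBs⟩ := HubData_section B₀ s
  rw [← hBc] at hdim
  have hph : Real.log (ph (2 ^ k)) ≤ 160 * (m : ℝ) ^ 2 := by
    have h1 := ph_le hβ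
    have h2 := one_le_ph hβ
    have h3 := Real.log_le_sub_one_of_pos (show 0 < ph (2 ^ k : ℝ) by linarith)
    linarith
  obtain ⟨bc, hbc⟩ : ∃ bc : ℝ, bc = B.card := ⟨_, rfl⟩
  have hbc0 : 0 ≤ bc := by rw [hbc]; positivity
  rw [← hbc] at hdim
  have hkey : a * d ≤ 1600 * m ^ 2 * bc * n := by
    have h1 : 2 / 5 * (qd Ar : ℝ) ≤ kp + bc * (160 * m ^ 2) := by
      rw [← hB₀c]
      refine hdim.trans ?_
      have := mul_le_mul_of_nonneg_left hph hbc0
      linarith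
    have h2 : 10 * (kp * n) ≤ d * a := by
      have h3 : om * (10 * (kp * n)) ≤ om * (d * a) := by
        calc om * (10 * (kp * n)) = 10 * (om * kp * n) := by ring
          _ ≤ 10 * (8 * P * x ^ 3 * d * a) := by linarith
          _ = (80 * P * x ^ 3) * (d * a) := by ring
          _ ≤ om * (d * a) := mul_le_mul_of_nonneg_right hP80 (by positivity)
      exact le_of_mul_le_mul_left h3 hom0
    have h4 : 2 / 5 * (qd Ar : ℝ) * n ≤ (kp + bc * (160 * m ^ 2)) * n :=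
      mul_le_mul_of_nonneg_right h1 hn0.le
    nlinarith
  have hfinA : om * d ≤ 6400 * m ^ 2 * bc := by
    have h1 : om * d * n ≤ 6400 * m ^ 2 * bc * n := by
      have h2 : om * n ≤ 4 * a := by linarith
      have h3 : om * n * d ≤ 4 * a * d := mul_le_mul_of_nonneg_right h2 hd0.le
      nlinarith
    exact le_of_mul_le_mul_right h1 hn0
  -- the blocks
  have hCex : ∀ b ∈ B, ∃ C ⊆ At.filter (fun a' => cl a' = cl b), C.card = M := by
    intro b hb
    exact Finset.exists_subset_card_eq (hArM b (hB₀ (hBB hb)))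
  choose! C hC hCc using hCex
  have hCAt : ∀ b ∈ B, ∀ a ∈ C b, a ∈ At ∧ cl a = cl b := by
    intro b hb a ha
    exact Finset.mem_filter.1 (hC b hb ha)
  refine ⟨B, C, B.biUnion fun b => (C b).image fun a => i * (a - b), hB₀q.mono hBB, ?_, ?_, ?_,
    ?_, ?_⟩
  · intro b hb
    exact ⟨fun a ha => hAt (hCAt b hb a ha).1, hCc b hb⟩
  · intro b hb b' hb' hne
    rw [Finset.disjoint_left]
    intro a ha ha'
    have h1 := (hCAt b hb a ha).2
    have h2 := (hCAt b' hb' a ha').2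
    rw [h1] at h2
    exact hBs b hb b' hb' hne (Prod.ext_iff.1 h2).1
  · intro b hb a ha
    exact Finset.mem_biUnion.2 ⟨b, hb, Finset.mem_image.2 ⟨a, ha, rfl⟩⟩
  · set V : Finset (ZMod p) := B.biUnion fun b => (C b).image fun a => i * (a - b) with hV
    have hVQ : ∀ v ∈ V, (1 : ℝ) / 4 ≤ fS (2 ^ k) U (1 * v) * fS (2 ^ k) R (1 * v) := by
      intro v hv
      obtain ⟨b, hb, hv⟩ := Finset.mem_biUnion.1 hv
      obtain ⟨a, ha, rfl⟩ := Finset.mem_image.1 hv
      obtain ⟨haAt, hcl'⟩ := hCAt b hb a ha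
      have h1 : s a = s b := (Prod.ext_iff.1 hcl').1
      have h2 : j a = j b := (Prod.ext_iff.1 hcl').2
      have qa : 3 / 4 ≤ Q (i * a - (j b : ZMod p) * s b) := by
        have := hatt a haAt
        rw [h1, h2] at this
        exact this
      have qb : 3 / 4 ≤ Q (i * b - (j b : ZMod p) * s b) := hatt b (hB₀At b (hBB hb))
      have h3 := hQ2.sub_ge (i * a - (j b : ZMod p) * s b) (i * b - (j b : ZMod p) * s b)
      have h4 : i * a - (j b : ZMod p) * s b - (i * b - (j b : ZMod p) * s b) =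
          1 * (i * (a - b)) := by ring
      rw [h4] at h3
      have h5 : (9 : ℝ) / 16 ≤ Q (i * a - (j b : ZMod p) * s b) *
          Q (i * b - (j b : ZMod p) * s b) := by nlinarith
      have h6 : (1 : ℝ) / 4 ≤ Q (1 * (i * (a - b))) := by nlinarith
      exact h6
    have hF := F2Q hp hβ hUR V one_ne_zero (by norm_num) hVQ
    rw [← hkp] at hF
    have hlog := HubData_log
    have hq0 : (0 : ℝ) ≤ qd V := by positivity
    have h1 : (qd V : ℝ) * (2 / 9) ≤ kp :=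
      (mul_le_mul_of_nonneg_left hlog hq0).trans hF
    have h2 : om * qd V * n ≤ 60000 * m ^ 2 * P * x ^ 3 * bc * n := by
      have h3 : om * qd V * n ≤ 9 / 2 * (om * kp * n) := by
        have h4 : (qd V : ℝ) ≤ 9 / 2 * kp := by linarith
        have h5 := mul_le_mul_of_nonneg_left h4 (show 0 ≤ om * n by positivity)
        nlinarith
      have h6 : (36 * P * x ^ 3) * (a * d) ≤ (36 * P * x ^ 3) * (1600 * m ^ 2 * bc * n) :=
        mul_le_mul_of_nonneg_left hkey (by positivity)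
      have h7 : 0 ≤ P * x ^ 3 * (m ^ 2 * bc * n) := by positivity
      nlinarith
    rw [← hbc]
    exact le_of_mul_le_mul_right h2 hn0
  · rw [← hbc, ← hd]
    exact hfinA

end Pool.Agent.Lib.MP_6d8312_an.KD
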